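import Pool.Agent.Q264.Wolst
import Pool.Agent.Q264.GaussSum

/-!
# Gaussian power sums: the valuation is not 3 for the prime 16843 and `r = 1`
-/

set_option autoImplicit false

namespace Pool.Agent.Results.MP_887aa5_nt.Disproof

open Finset

/-- The Gaussian integer `∑ (a + b i) ^ n`, where `a` and `b` run over `1, ..., p - 1`. -/
def G (p n : ℕ) : GaussianInt := ∑ a ∈ Icc 1 (p - 1), ∑ b ∈ Icc 1 (p - 1), (⟨(a : ℤ), (b : ℤ)⟩ : GaussianInt) ^ n

/-- The `p`-adic valuation of a Gaussian integer: the minimum of the valuations of its two coordinates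
(the valuation of `0` is infinite). -/
noncomputable def v (p : ℕ) (z : GaussianInt) : ℕ∞ := min (emultiplicity (p : ℤ) z.re) (emultiplicity (p : ℤ) z.im)

theorem prime : Nat.Prime 16843 := by norm_num

theorem four_le : 4 ≤ v 16843 (G 16843 (1 * (16843 - 1))) := by
  have hS : (((16843 : ℕ) : ℤ) ^ 3) ∣ Q264.GaussSum.S 16843 (16843 - 2) := by
    unfold Q264.GaussSum.S
    have h := Q264.Wolst.power_sum
    have h2 : (((16843 : ℕ) ^ 3 : ℕ) : ℤ) ∣ ((∑ a ∈ Icc 1 16842, a ^ 16841 : ℕ) : ℤ) := Int.natCast_dvd_natCast.2 h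
    rw [Nat.cast_pow, Nat.cast_sum] at h2
    simp only [Nat.cast_pow] at h2
    exact h2
  obtain ⟨h1, h2⟩ := Q264.GaussSum.G_dvd prime (by norm_num) (by norm_num) hS
  rw [one_mul]
  exact le_min (le_emultiplicity_of_pow_dvd h1) (le_emultiplicity_of_pow_dvd h2)

/-- For the prime `16843`, which is `3` modulo `4`, and `r = 1`, the valuation is at least `4`, not `3`. -/
theorem result :
    (Nat.Prime 16843 ∧ 16843 % 4 = 3 ∧ 4 ≤ v 16843 (G 16843 (1 * (16843 - 1)))) ∧
    ¬ (∀ p : ℕ, p.Prime → p % 4 = 3 → 7 ≤ p → ∀ r : ℕ, 1 ≤ r →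
      (Even r → v p (G p (r * (p - 1))) = 0) ∧ (Odd r → v p (G p (r * (p - 1))) = 3)) := by
  refine ⟨⟨prime, by norm_num, four_le⟩, fun h => ?_⟩
  have h1 := (h 16843 prime (by norm_num) (by norm_num) 1 le_rfl).2 odd_one
  have h2 := four_le
  rw [h1] at h2
  exact absurd h2 (by decide)

end Pool.Agent.Results.MP_887aa5_nt.Disproof
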